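import Mathlib
import Pool.Agent.H315R2.EB.Stubs

/-!
# Task LF: local finiteness of the lattice complex (MP_26e62b_al)
-/

namespace Pool.Agent.H315R2.EB

open Module
open scoped Pointwise

section LF

variable {O K V : Type} [CommRing O] [IsDomain O] [IsDiscreteValuationRing O]
  [Field K] [Algebra O K] [AddCommGroup V] [Module K V] [Module O V]
  [IsScalarTower O K V]

/-- Finitely many submodules between `p L` and `L`. -/
theorem lf_Icc_finite (p : Kˣ) (hp : IsUnif O p) (hfin : Finite (IsLocalRing.ResidueField O))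
    (L : Submodule O V) (hL : L.FG) : (Set.Icc (p • L) L).Finite := by
  classical
  obtain ⟨ϖ, hϖ, hpϖ⟩ := hp
  obtain ⟨s, hs⟩ := hL
  have hmax : IsLocalRing.maximalIdeal O = Ideal.span {ϖ} :=
    (IsDiscreteValuationRing.irreducible_iff_uniformizer ϖ).1 hϖ
  -- representatives of the residue field
  have hsurj : Function.Surjective (IsLocalRing.residue O) := IsLocalRing.residue_surjective
  let rep : IsLocalRing.ResidueField O → O := Function.surjInv hsurj
  have hrep : ∀ c, IsLocalRing.residue O (rep c) = c := Function.surjInv_eq hsurj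
  let f : (s → IsLocalRing.ResidueField O) → V := fun c => ∑ g : s, rep (c g) • (g : V)
  have hkey : ∀ v ∈ L, ∃ c : s → IsLocalRing.ResidueField O, v - f c ∈ p • L := by
    intro v hv
    rw [← hs] at hv
    obtain ⟨a, -, ha⟩ := Submodule.mem_span_finset.1 hv
    refine ⟨fun g => IsLocalRing.residue O (a g), ?_⟩
    have hdiff : ∀ g : s, ∃ b : O, a g - rep (IsLocalRing.residue O (a g)) = ϖ * b := by
      intro g
      have h1 : IsLocalRing.residue O (a g - rep (IsLocalRing.residue O (a g))) = 0 := by
        rw [map_sub, hrep, sub_self]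
      rw [IsLocalRing.residue_eq_zero_iff, hmax, Ideal.mem_span_singleton] at h1
      exact h1
    choose b hb using hdiff
    have hv2 : v = ∑ g : s, a g • (g : V) := by
      rw [← ha, ← Finset.sum_coe_sort]
    have h2 : v - f (fun g => IsLocalRing.residue O (a g)) = p • ∑ g : s, b g • (g : V) := by
      rw [hv2]
      show (∑ g : s, a g • (g : V)) - (∑ g : s, rep (IsLocalRing.residue O (a g)) • (g : V)) = _
      rw [← Finset.sum_sub_distrib, Finset.smul_sum]
      refine Finset.sum_congr rfl fun g _ => ?_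
      rw [← sub_smul, hb g, mul_smul, Units.smul_def, ← hpϖ, algebraMap_smul]
    rw [h2]
    refine Submodule.smul_mem_pointwise_smul _ _ _ ?_
    refine Submodule.sum_mem _ fun g _ => Submodule.smul_mem _ _ ?_
    rw [← hs]
    exact Submodule.subset_span g.2
  have hinj : Set.InjOn (fun M : Submodule O V => {c : s → IsLocalRing.ResidueField O | f c ∈ M})
      (Set.Icc (p • L) L) := by
    have hle : ∀ M ∈ Set.Icc (p • L) L, ∀ M' ∈ Set.Icc (p • L) L,
        {c : s → IsLocalRing.ResidueField O | f c ∈ M} =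
          {c : s → IsLocalRing.ResidueField O | f c ∈ M'} → M ≤ M' := by
      intro M hM M' hM' he v hv
      obtain ⟨c, hc⟩ := hkey v (hM.2 hv)
      have h1 : f c ∈ M := by
        have h3 : f c = v - (v - f c) := by abel
        rw [h3]
        exact M.sub_mem hv (hM.1 hc)
      have h2 : f c ∈ M' := by
        have : c ∈ {c : s → IsLocalRing.ResidueField O | f c ∈ M} := h1
        rw [he] at this
        exact this
      have h4 : v = (v - f c) + f c := by abel
      rw [h4]
      exact M'.add_mem (hM'.1 hc) h2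
    intro M hM M' hM' he
    exact le_antisymm (hle M hM M' hM' he) (hle M' hM' M hM he.symm)
  exact Set.Finite.of_finite_image (Set.toFinite _) hinj

end LF

/-- LF: local finiteness. -/
theorem LF_proof (_hV : St_VAL) (_hH : St_HOM) (hW : St_WIN) : St_LF := by
  intro O K V _ _ _ _ _ _ _ _ _ _ _ p hp hdim hfin x
  classical
  obtain ⟨L0, rfl⟩ : ∃ L0 : Lat O K V, cls L0 = x := Quotient.exists_rep x
  have hcls : ∀ (L : Lat O K V) (k : ℤ) (h : Submodule.IsLattice K (p ^ k • L.1)),
      cls (⟨p ^ k • L.1, h⟩ : Lat O K V) = cls L := by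
    intro L k h
    refine Quotient.sound ?_
    exact ⟨(p ^ k)⁻¹, by rw [inv_smul_smul]⟩
  have hlat : ∀ (L : Lat O K V) (k : ℤ), Submodule.IsLattice K (p ^ k • L.1) := by
    intro L k
    have := L.2
    infer_instance
  -- the finite set of neighbours
  have hfinI : (Set.Icc (p • L0.1) L0.1).Finite :=
    lf_Icc_finite p hp hfin L0.1 L0.2.fg
  have hN : (cls '' ((fun L : Lat O K V => L.1) ⁻¹' (Set.Icc (p • L0.1) L0.1))).Finite := by
    refine Set.Finite.image _ ?_
    exact hfinI.preimage (Subtype.val_injective.injOn)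
  refine Set.Finite.subset (Finset.finite_toSet hN.toFinset.powerset) ?_
  rintro s ⟨hs, hx⟩
  rw [Finset.mem_coe, Finset.mem_powerset]
  intro y hy
  rw [Set.Finite.mem_toFinset]
  obtain ⟨L, rfl⟩ : ∃ L : Lat O K V, cls L = y := Quotient.exists_rep y
  have hcomp : ∀ k : ℤ, p ^ k • L.1 ≤ L0.1 ∨ L0.1 ≤ p ^ k • L.1 := by
    intro k
    exact hs.2 ⟨p ^ k • L.1, hlat L k⟩ L0 (by rw [hcls]; exact hy) hx
  obtain ⟨k, hk1, hk2⟩ := hW O K V p hp hdim L L0 hcomp
  exact ⟨⟨p ^ k • L.1, hlat L k⟩, ⟨hk2.le, hk1⟩, hcls L k _⟩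

end Pool.Agent.H315R2.EB
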